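import Pool.Agent.H89.TRI.Lib

set_option autoImplicit false

open MeasureTheory Set Filter Topology MvPolynomial
open scoped Real ContDiff Laplacian

namespace Pool.TRI

theorem chr (hB : BASStmt) : CHRStmt := by
  intro h1 h2 T B w hw h21 h10 hlt
  obtain ⟨-, -, -, -, -, -, -, -, -, -, -, hprod, h01p, h12p, h20p⟩ := hB T B
  set a := B.c 0 with ha
  set b := B.c 1 with hb
  set c := B.c 2 with hc
  have ha0 : 0 < a := by linarith
  have hb0 : 0 < b := by
    by_contra hneg
    push Not at hneg
    have hc0 : c ≤ 0 := by linarith
    have e1 : a * b ≤ 0 := mul_nonpos_of_nonneg_of_nonpos ha0.le hneg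
    have e2 : c * (a + b) ≤ 0 := mul_nonpos_of_nonpos_of_nonneg hc0 h01p.le
    nlinarith
  by_cases hcase : 1 - c / a ≤ 84 / 100
  · -- first chart
    have hca : c / a < 994 / 1000 := by
      rw [div_lt_iff₀ ha0]; linarith
    have hcb : c / a ≤ b / a := by
      rw [div_le_div_iff_of_pos_right ha0]; exact h21
    have hba : b / a ≤ 1 := by
      rw [div_le_one ha0]; exact h10
    set t := 1 - c / a with ht
    have ht0 : 6 / 1000 ≤ t := by linarith
    have htp : 0 < t := by linarith
    have hv0 : 0 ≤ (1 - b / a) / t := div_nonneg (by linarith) htp.le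
    have hv1 : (1 - b / a) / t ≤ 1 := by
      rw [div_le_one htp]; linarith
    refine h1 t ((1 - b / a) / t) ht0 hcase hv0 hv1 T B w hw a ha0 ?_
    have htv : t * ((1 - b / a) / t) = 1 - b / a := by
      field_simp
    intro k
    fin_cases k
    · simp [chi, ← ha]
    · simp only [chi]
      show B.c 1 = a * (1 - t * ((1 - b / a) / t))
      rw [htv, ← hb]
      field_simp
      ring
    · simp only [chi]
      show B.c 2 = a * (1 - t)
      rw [← hc, ht]
      field_simp
      ring
  · -- second chart
    push Not at hcase
    have hca : c ≤ 16 / 100 * a := by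
      have : c / a < 16 / 100 := by linarith
      rw [div_lt_iff₀ ha0] at this
      linarith
    have hs : 0 < a + b := h01p
    set s := a + b with hsdef
    have hs2 : 0 < s ^ 2 := by positivity
    have hu1 : 1 / 2 ≤ a / s := by
      rw [div_le_div_iff₀ two_pos hs]; linarith
    have hu2 : a / s < 1 := by
      rw [div_lt_one hs]; linarith
    have hv0 : 0 < (a * b + b * c + c * a) / s ^ 2 := div_pos hprod hs2
    have hsne : s ≠ 0 := hs.ne'
    have hb' : b / s = 1 - a / s := by
      rw [eq_sub_iff_add_eq, ← add_div, add_comm b a, ← hsdef, div_self hsne]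
    have hkey : (a * b + b * c + c * a) / s ^ 2 - a / s * (1 - a / s) = c / s := by
      rw [← hb']
      field_simp
      rw [hsdef]; ring
    have hcs : c / s ≤ b / s := by
      rw [div_le_div_iff_of_pos_right hs]; exact h21
    have hcs2 : c / s ≤ 16 / 100 * (a / s) := by
      rw [← mul_div_assoc, div_le_div_iff_of_pos_right hs]; exact hca
    refine h2 (a / s) ((a * b + b * c + c * a) / s ^ 2) hu1 hu2 hv0 ?_ ?_ T B w hw s hs ?_
    · nlinarith
    · nlinarith
    · intro k
      fin_cases k
      · simp only [chi]
        show B.c 0 = s * (a / s)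
        rw [← ha]; field_simp
      · simp only [chi]
        show B.c 1 = s * (1 - a / s)
        rw [← hb, ← hb']; field_simp
      · simp only [chi]
        show B.c 2 = s * ((a * b + b * c + c * a) / s ^ 2 - a / s * (1 - a / s))
        rw [hkey, ← hc]; field_simp

end Pool.TRI
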