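import Pool.Agent.H89.TRI.Lib

set_option autoImplicit false

open MeasureTheory Set Filter Topology MvPolynomial
open scoped Real ContDiff Laplacian

namespace Pool.TRI

theorem eqd (hB : BASStmt) : EQDStmt := by
  intro A B C D h0A h1B _ h0B h0C h1A h1C _ _
  obtain ⟨-, -, -, -, -, -, -, -, -, hnorm, -, -, -, -, -⟩ := hB (tri A B C) D
  have n0 : ‖D.g 0‖ ^ 2 = D.c 1 + D.c 2 := hnorm 0
  have n1 : ‖D.g 1‖ ^ 2 = D.c 2 + D.c 0 := hnorm 1
  have n2 : ‖D.g 2‖ ^ 2 = D.c 0 + D.c 1 := hnorm 2
  have hJ := D.indep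
  have hsum := D.sum_g
  have hg2 : D.g 2 = -(D.g 0 + D.g 1) := by
    rw [eq_neg_iff_add_eq_zero, add_comm]; exact hsum
  rw [hg2, norm_neg] at n2
  unfold Bary.x at h0A h1B h0B h0C h1A h1C
  simp only [Complex.mul_re, Complex.conj_re, Complex.conj_im, Complex.mul_im] at h0A h1B h0B h0C h1A h1C hJ
  rw [Complex.sq_norm, Complex.normSq_apply] at n0 n1 n2
  simp only [Complex.add_re, Complex.add_im] at n2
  set a := (D.g 0).re
  set b := (D.g 0).im
  set c := (D.g 1).re
  set d := (D.g 1).im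
  -- the sides
  have dAB : dist A B ^ 2 = (A.re - B.re) * (A.re - B.re) + (A.im - B.im) * (A.im - B.im) := by
    rw [Complex.dist_eq, Complex.sq_norm, Complex.normSq_apply]; simp
  have dBC : dist B C ^ 2 = (B.re - C.re) * (B.re - C.re) + (B.im - C.im) * (B.im - C.im) := by
    rw [Complex.dist_eq, Complex.sq_norm, Complex.normSq_apply]; simp
  have dCA : dist C A ^ 2 = (C.re - A.re) * (C.re - A.re) + (C.im - A.im) * (C.im - A.im) := by
    rw [Complex.dist_eq, Complex.sq_norm, Complex.normSq_apply]; simp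
  set J := a * d - b * c with hJdef
  have hJ0 : J ≠ 0 := by
    intro h
    apply hJ
    rw [hJdef] at h
    linarith
  have p1 : (A.re - C.re) * J = d := by
    rw [hJdef]; linear_combination d * (h0A - h0C) - b * (h1A - h1C)
  have p2 : (A.im - C.im) * J = -c := by
    rw [hJdef]; linear_combination (-c) * (h0A - h0C) + a * (h1A - h1C)
  have q1 : (B.re - C.re) * J = -b := by
    rw [hJdef]; linear_combination d * (h0B - h0C) - b * (h1B - h1C)
  have q2 : (B.im - C.im) * J = a := by
    rw [hJdef]; linear_combination (-c) * (h0B - h0C) + a * (h1B - h1C)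
  have eCA : dist C A ^ 2 * J ^ 2 = D.c 2 + D.c 0 := by
    rw [dCA, ← n1]; linear_combination ((A.re - C.re) * J + d) * p1 + ((A.im - C.im) * J - c) * p2
  have eBC : dist B C ^ 2 * J ^ 2 = D.c 1 + D.c 2 := by
    rw [dBC, ← n0]; linear_combination ((B.re - C.re) * J - b) * q1 + ((B.im - C.im) * J + a) * q2
  have r1 : (A.re - B.re) * J = b + d := by linear_combination p1 - q1
  have r2 : (A.im - B.im) * J = -(a + c) := by linear_combination p2 - q2
  have eAB : dist A B ^ 2 * J ^ 2 = D.c 0 + D.c 1 := by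
    rw [dAB, ← n2]
    linear_combination ((A.re - B.re) * J + (b + d)) * r1 + ((A.im - B.im) * J - (a + c)) * r2
  have hJ2 : J ^ 2 ≠ 0 := pow_ne_zero 2 hJ0
  constructor
  · rintro ⟨h1, h2⟩
    constructor
    · have : dist A B ^ 2 = dist B C ^ 2 := by
        apply mul_right_cancel₀ hJ2; rw [eAB, eBC]; linarith
      exact (pow_left_inj₀ dist_nonneg dist_nonneg two_ne_zero).1 this
    · have : dist B C ^ 2 = dist C A ^ 2 := by
        apply mul_right_cancel₀ hJ2; rw [eBC, eCA]; linarith
      exact (pow_left_inj₀ dist_nonneg dist_nonneg two_ne_zero).1 this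
  · rintro ⟨h1, h2⟩
    rw [h1] at eAB
    rw [← h2] at eCA
    constructor <;> linarith

end Pool.TRI
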